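import Mathlib
import Pool.Agent.MA74.Red5

/-!
Smoothness of `C¹` plurisubharmonic solutions of the complex Monge-Ampere equation with constant
right side in `ℂ²` that do not depend on `Im z₂`.
-/

set_option autoImplicit false

open MeasureTheory Set Filter Topology
open scoped ContDiff

namespace Pool.Agent.Results.MP_4d4edd_an.InvariantC1

/-- The real Hessian of `v` at `z` on two vectors. -/
noncomputable def hess (n : ℕ) (v : (Fin n → ℂ) → ℝ) (z a b : Fin n → ℂ) : ℝ :=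
  fderiv ℝ (fderiv ℝ v) z a b

/-- The real coordinate vector `∂/∂x_j`. -/
noncomputable def ex (n : ℕ) (j : Fin n) : Fin n → ℂ := Pi.single j (1 : ℂ)

/-- The real coordinate vector `∂/∂y_j`. -/
noncomputable def ey (n : ℕ) (j : Fin n) : Fin n → ℂ := Pi.single j Complex.I

/-- The Levi form of `v` at `z` on the vector `ξ` (up to a positive constant). -/
noncomputable def leviForm (n : ℕ) (v : (Fin n → ℂ) → ℝ) (z ξ : Fin n → ℂ) : ℝ :=
  hess n v z ξ ξ + hess n v z (Complex.I • ξ) (Complex.I • ξ)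

/-- The complex Hessian `(∂²v/∂z_j∂z̄_l)` of `v` at `z`. -/
noncomputable def complexHessian (n : ℕ) (v : (Fin n → ℂ) → ℝ) (z : Fin n → ℂ) :
    Matrix (Fin n) (Fin n) ℂ :=
  Matrix.of fun j l : Fin n =>
    (1 / 4 : ℂ) *
      (((hess n v z (ex n j) (ex n l) + hess n v z (ey n j) (ey n l) : ℝ) : ℂ)
      + Complex.I * ((hess n v z (ex n j) (ey n l) - hess n v z (ey n j) (ex n l) : ℝ) : ℂ))

/-- `u` satisfies the sub-mean-value inequality on every closed complex disc lying in `Ω`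
(for continuous `u` this says that `u` is plurisubharmonic on `Ω`). -/
def IsPSH (n : ℕ) (Ω : Set (Fin n → ℂ)) (u : (Fin n → ℂ) → ℝ) : Prop :=
  ∀ z w : Fin n → ℂ, (∀ ζ : ℂ, ‖ζ‖ ≤ 1 → z + ζ • w ∈ Ω) →
    u z ≤ (2 * Real.pi)⁻¹ *
      ∫ θ in (0 : ℝ)..(2 * Real.pi), u (z + Complex.exp ((θ : ℂ) * Complex.I) • w)

/-- The Monge-Ampere measure of `u` (in the sense of Bedford and Taylor, normalised as
`det (∂²v/∂z_j∂z̄_l) dV` for smooth `v`) is `f dV` on `Ω`: on every open `W ⊆ Ω`, whenever smooth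
plurisubharmonic functions `v k` converge to `u` locally uniformly on `W`, the measures
`det (∂²(v k)/∂z_j∂z̄_l) dV` converge weakly to `f dV` on `W`. -/
def HasMA (n : ℕ) (Ω : Set (Fin n → ℂ)) (u f : (Fin n → ℂ) → ℝ) : Prop :=
  ∀ W : Set (Fin n → ℂ), W ⊆ Ω → IsOpen W →
    ∀ φ : (Fin n → ℂ) → ℝ, ContDiff ℝ ∞ φ → HasCompactSupport φ → tsupport φ ⊆ W →
      ∀ v : ℕ → (Fin n → ℂ) → ℝ, (∀ k, ContDiffOn ℝ ∞ (v k) W) →
        (∀ k, ∀ z ∈ W, ∀ ξ : Fin n → ℂ, 0 ≤ leviForm n (v k) z ξ) →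
        TendstoLocallyUniformlyOn v u atTop W →
        Tendsto (fun k => ∫ z, φ z * (complexHessian n (v k) z).det.re) atTop
          (𝓝 (∫ z, φ z * f z))

/-- A `C¹` plurisubharmonic function on an open set of `ℂ²` that does not depend on `Im z₂` and
whose Monge-Ampere measure is a positive constant times Lebesgue measure is `C^∞`. -/
theorem result (Ω : Set (Fin 2 → ℂ)) (hΩ : IsOpen Ω) (u : (Fin 2 → ℂ) → ℝ) (c : ℝ) (hc : 0 < c)
    (hu : ContDiffOn ℝ 1 u Ω) (hpsh : IsPSH 2 Ω u)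
    (hinv : ∀ z ∈ Ω, fderiv ℝ u z (ey 2 1) = 0)
    (hMA : HasMA 2 Ω u (fun _ => c)) :
    ContDiffOn ℝ ∞ u Ω :=
  Pool.MA74.main hΩ hc hu hpsh hinv
    (fun W hW hWo φ h1 h2 h3 v h4 h5 h6 => hMA W hW hWo φ h1 h2 h3 v h4 h5 h6)

end Pool.Agent.Results.MP_4d4edd_an.InvariantC1
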